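import Pool.Agent.Y755.FK.Stm

set_option autoImplicit false

open Finset MeasureTheory Filter Topology

open scoped Classical

namespace Pool.Agent.Y248.FK

open Pool.Agent.Y755.FK

/-- the factors of the correction product -/
noncomputable def vz (p : ℕ) (s : ℂ) : ℂ :=
  if p = 2 then -(p : ℂ) ^ (-s)
  else -(3 / 4) * ((p : ℂ) ^ (-s)) ^ 2 - (1 / 4) * ((p : ℂ) ^ (-s)) ^ 3

theorem vz_ok (p : ℕ) (hp : p.Prime) (s : ℂ) (hs : 3 / 4 < s.re) :
    DifferentiableAt ℂ (vz p) s ∧ ‖vz p s‖ ≤ 2 * (p : ℝ) ^ (-(3 / 2) : ℝ) ∧ 1 + vz p s ≠ 0 := by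
  have hp0 : (0 : ℝ) < p := by exact_mod_cast hp.pos
  have hp1 : (1 : ℝ) < p := by exact_mod_cast hp.one_lt
  have hpc : (p : ℂ) ≠ 0 := by exact_mod_cast hp.ne_zero
  set z : ℂ := (p : ℂ) ^ (-s) with hzdef
  have hz : ‖z‖ = (p : ℝ) ^ (-s.re) := by
    rw [hzdef, ← Complex.ofReal_natCast, Complex.norm_cpow_eq_rpow_re_of_pos hp0, Complex.neg_re]
  have hz1 : ‖z‖ ≤ (p : ℝ) ^ (-(3 / 4) : ℝ) := by
    rw [hz]; exact Real.rpow_le_rpow_of_exponent_le hp1.le (by linarith)
  have hz2 : ‖z‖ < 1 := by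
    rw [hz]; exact Real.rpow_lt_one_of_one_lt_of_neg hp1 (by linarith)
  have hsq : ((p : ℝ) ^ (-(3 / 4) : ℝ)) ^ 2 = (p : ℝ) ^ (-(3 / 2) : ℝ) := by
    rw [← Real.rpow_natCast, ← Real.rpow_mul hp0.le]; norm_num
  have hd : DifferentiableAt ℂ (fun s : ℂ => (p : ℂ) ^ (-s)) s := by
    apply DifferentiableAt.const_cpow differentiableAt_id.neg
    exact Or.inl hpc
  have h1z : (1 : ℂ) - z ≠ 0 := by
    intro h
    have : z = 1 := by linear_combination -h
    rw [this] at hz2
    simp at hz2
  refine ⟨?_, ?_, ?_⟩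
  · by_cases h2 : p = 2
    · have : vz p = fun s : ℂ => -(p : ℂ) ^ (-s) := by
        funext s; simp only [vz, if_pos h2]
      rw [this]
      exact hd.neg
    · have : vz p = fun s : ℂ => -(3 / 4) * ((p : ℂ) ^ (-s)) ^ 2 - (1 / 4) * ((p : ℂ) ^ (-s)) ^ 3 := by
        funext s; simp only [vz, if_neg h2]
      rw [this]
      exact ((hd.pow 2).const_mul _).sub ((hd.pow 3).const_mul _)
  · by_cases h2 : p = 2
    · have hv : vz p s = -z := by simp only [vz, if_pos h2, hzdef]
      rw [hv, norm_neg]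
      refine hz1.trans ?_
      have h3 : (2 : ℝ) * (p : ℝ) ^ (-(3 / 2) : ℝ) = (p : ℝ) ^ (-(1 / 2) : ℝ) := by
        rw [h2]
        push_cast
        nth_rewrite 1 [← Real.rpow_one 2]
        rw [← Real.rpow_add (by norm_num)]
        norm_num
      rw [h3]
      exact Real.rpow_le_rpow_of_exponent_le hp1.le (by norm_num)
    · have hv : vz p s = -(3 / 4) * z ^ 2 - (1 / 4) * z ^ 3 := by simp only [vz, if_neg h2, hzdef]
      rw [hv]
      have h0 := norm_nonneg z
      have h4 : ‖-(3 / 4 : ℂ) * z ^ 2 - (1 / 4) * z ^ 3‖ ≤ 3 / 4 * ‖z‖ ^ 2 + 1 / 4 * ‖z‖ ^ 3 := by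
        refine (norm_sub_le _ _).trans ?_
        rw [norm_mul, norm_mul, norm_pow, norm_pow, norm_neg]
        norm_num
      refine h4.trans ?_
      have h5 : ‖z‖ ^ 2 ≤ (p : ℝ) ^ (-(3 / 2) : ℝ) := by
        rw [← hsq]; exact pow_le_pow_left₀ h0 hz1 2
      have h6 : ‖z‖ ^ 3 ≤ ‖z‖ ^ 2 := pow_le_pow_of_le_one h0 hz2.le (by norm_num)
      have h7 : 0 ≤ (p : ℝ) ^ (-(3 / 2) : ℝ) := by positivity
      linarith
  · by_cases h2 : p = 2
    · have hv : vz p s = -z := by simp only [vz, if_pos h2, hzdef]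
      rw [hv, ← sub_eq_add_neg]
      exact h1z
    · have hv : 1 + vz p s = (1 + z / 2) ^ 2 * (1 - z) := by
        simp only [vz, if_neg h2, ← hzdef]; ring
      rw [hv]
      refine mul_ne_zero (pow_ne_zero _ ?_) h1z
      intro h
      have h3 : z = -2 := by linear_combination 2 * h
      rw [h3] at hz2
      norm_num at hz2

/-- the coefficients -/
noncomputable def az (k : ℕ) : ℝ := if osf k then (1 / 2 : ℝ) ^ om k else 0

theorem az_zero : az 0 = 0 := by
  have : ¬ osf 0 := by
    rintro ⟨h, -⟩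
    exact absurd h (by decide)
  simp only [az, if_neg this]

theorem osf_one : osf 1 := ⟨odd_one, squarefree_one⟩

theorem az_one : az 1 = 1 := by
  simp only [az, if_pos osf_one, om, Nat.primeFactors_one, Finset.card_empty, pow_zero]

theorem osf_mul {m n : ℕ} (h : Nat.Coprime m n) : osf (m * n) ↔ osf m ∧ osf n := by
  simp only [osf, Nat.odd_mul, Nat.squarefree_mul h]
  tauto

theorem om_mul {m n : ℕ} (h : Nat.Coprime m n) : om (m * n) = om m + om n := by
  simp only [om]
  rw [h.primeFactors_mul, Finset.card_union_of_disjoint h.disjoint_primeFactors]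

theorem az_mul {m n : ℕ} (h : Nat.Coprime m n) : az (m * n) = az m * az n := by
  simp only [az, osf_mul h]
  by_cases h1 : osf m <;> by_cases h2 : osf n <;> simp [h1, h2, om_mul h, pow_add]

theorem az_nonneg (k : ℕ) : 0 ≤ az k := by
  simp only [az]
  split_ifs <;> positivity

theorem az_le (k : ℕ) : az k ≤ 1 := by
  simp only [az]
  split_ifs
  · exact pow_le_one₀ (by norm_num) (by norm_num)
  · norm_num

theorem az_prime {p : ℕ} (hp : p.Prime) : az p = if p = 2 then 0 else 1 / 2 := by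
  by_cases h2 : p = 2
  · subst h2
    have : ¬ osf 2 := by
      rintro ⟨h, -⟩
      exact absurd h (by decide)
    simp only [az, if_neg this, if_pos]
  · have h3 : osf p := ⟨hp.odd_of_ne_two h2, hp.prime.squarefree⟩
    simp only [az, if_pos h3, if_neg h2, om, hp.primeFactors, Finset.card_singleton, pow_one]

theorem az_prime_pow {p e : ℕ} (hp : p.Prime) (he : 2 ≤ e) : az (p ^ e) = 0 := by
  have : ¬ osf (p ^ e) := by
    rintro ⟨-, h⟩
    rw [Nat.squarefree_pow_iff hp.ne_one (by omega)] at h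
    omega
  simp only [az, if_neg this]

/-- the Euler product of `ZZ` -/
theorem zz_prod {x : ℝ} (hx : 0 < x) :
    HasProd (fun p : Nat.Primes => (1 : ℝ) + az p * ((p : ℕ) : ℝ) ^ (-(1 + x))) (ZZ x) := by
  set f : ℕ → ℝ := fun k => az k * (k : ℝ) ^ (-(1 + x)) with hf
  have hsum : Summable (fun k => ‖f k‖) := by
    have h1 : Summable (fun k : ℕ => (k : ℝ) ^ (-(1 + x))) := by
      rw [Real.summable_nat_rpow]; linarith
    refine Summable.of_nonneg_of_le (fun k => norm_nonneg _) (fun k => ?_) h1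
    rw [hf]
    simp only [norm_mul]
    rw [Real.norm_of_nonneg (az_nonneg k), Real.norm_of_nonneg (by positivity)]
    have : 0 ≤ (k : ℝ) ^ (-(1 + x)) := by positivity
    nlinarith [az_le k]
  have hf0 : f 0 = 0 := by simp only [hf, az_zero, zero_mul]
  have hf1 : f 1 = 1 := by simp only [hf, az_one, Nat.cast_one, Real.one_rpow, mul_one]
  have hmul : ∀ {m n : ℕ}, Nat.Coprime m n → f (m * n) = f m * f n := by
    intro m n h
    simp only [hf]
    rw [az_mul h, Nat.cast_mul, Real.mul_rpow (by positivity) (by positivity)]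
    ring
  have h1 := EulerProduct.eulerProduct_hasProd hf1 hmul hsum hf0
  have h2 : (∑' n, f n) = ZZ x := by
    simp only [ZZ, DS]
    apply tsum_congr
    intro k
    by_cases hk : k = 0
    · rw [if_pos hk, hk, hf0]
    · rw [if_neg hk]
      rfl
  rw [h2] at h1
  have h3 : (fun p : Nat.Primes => (1 : ℝ) + az p * ((p : ℕ) : ℝ) ^ (-(1 + x))) =
      fun p : Nat.Primes => ∑' e : ℕ, f ((p : ℕ) ^ e) := by
    funext p
    have hp := p.2
    rw [tsum_eq_sum (s := {0, 1})]
    · rw [Finset.sum_pair (by norm_num), pow_zero, pow_one, hf1]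
    · intro e he
      simp only [Finset.mem_insert, Finset.mem_singleton, not_or] at he
      simp only [hf]
      rw [az_prime_pow hp (by omega), zero_mul]
  rw [h3]
  exact h1

theorem zz_nonneg (x : ℝ) : 0 ≤ ZZ x := by
  simp only [ZZ, DS]
  apply tsum_nonneg
  intro k
  split_ifs
  · exact le_refl _
  · positivity
  · simp

/-- `(s - 1) ζ(s)` -/
noncomputable def hz : ℂ → ℂ := Function.update (fun s => (s - 1) * riemannZeta s) 1 1

theorem hz_of_ne {s : ℂ} (hs : s ≠ 1) : hz s = (s - 1) * riemannZeta s := by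
  simp only [hz, Function.update_of_ne hs]

theorem hz_one : hz 1 = 1 := by simp only [hz, Function.update_self]

theorem hz_diff (s : ℂ) : DifferentiableAt ℂ hz s := by
  have h1 : ∀ s : ℂ, s ≠ 1 → DifferentiableAt ℂ hz s := by
    intro s hs
    have h2 : DifferentiableAt ℂ (fun s => (s - 1) * riemannZeta s) s :=
      (differentiableAt_id.sub_const 1).mul (differentiableAt_riemannZeta hs)
    refine h2.congr_of_eventuallyEq ?_
    filter_upwards [isOpen_ne.mem_nhds hs] with z hz'
    exact hz_of_ne hz'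
  by_cases hs : s = 1
  · subst hs
    apply AnalyticAt.differentiableAt
    apply Complex.analyticAt_of_differentiable_on_punctured_nhds_of_continuousAt
    · filter_upwards [self_mem_nhdsWithin] with z hz'
      exact h1 z hz'
    · rw [hz, continuousAt_update_same]
      exact riemannZeta_residue_one
  · exact h1 s hs

theorem t_ZV (hEP : S_EP) : S_ZV := by
  intro hE
  obtain ⟨C, hC⟩ := hEP 2
  have hC' := hC vz (fun p hp s hs => vz_ok p hp s hs)
  set E : ℂ → ℂ := fun s => ∏' p : Nat.Primes, (1 + vz p s) with hEdef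
  have hEd : ∀ s : ℂ, 3 / 4 < s.re → DifferentiableAt ℂ E s := fun s hs => (hC' s hs).2.1
  have hE0 : ∀ s : ℂ, 3 / 4 < s.re → E s ≠ 0 := fun s hs => (hC' s hs).2.2.1
  set Φ : ℂ → ℂ := fun s => hz s * E s with hΦ
  have hΦd : ∀ s : ℂ, 3 / 4 < s.re → DifferentiableAt ℂ Φ s := fun s hs =>
    (hz_diff s).mul (hEd s hs)
  have hopen : IsOpen {s : ℂ | 3 / 4 < s.re} := isOpen_lt continuous_const Complex.continuous_re
  have hΦa : ∀ s : ℂ, 3 / 4 < s.re → AnalyticAt ℂ Φ s := by
    intro s hs
    apply DifferentiableOn.analyticAt (s := {s : ℂ | 3 / 4 < s.re})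
    · intro z hz'
      exact (hΦd z hz').differentiableWithinAt
    · exact hopen.mem_nhds hs
  -- the value at real points
  have hval : ∀ x : ℝ, 0 < x → Φ (1 + x) = ((x * ZZ x ^ 2 : ℝ) : ℂ) := by
    intro x hx
    have hre : (1 + (x : ℂ)).re = 1 + x := by simp
    have hs1 : 1 < (1 + (x : ℂ)).re := by rw [hre]; linarith
    have hne : (1 + (x : ℂ)) ≠ 1 := by
      intro h
      have := congrArg Complex.re h
      rw [hre] at this
      simp at this
      linarith
    have h1 := (zz_prod hx).map (Complex.ofRealHom : ℝ →+* ℂ) Complex.continuous_ofReal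
    have h2 := riemannZeta_eulerProduct_hasProd hs1
    have h3 : HasProd (fun p : Nat.Primes => (1 + vz p (1 + x))) (E (1 + x)) :=
      (hC' (1 + x) (by rw [hre]; linarith)).1.hasProd
    have h4 := h2.mul h3
    have h5 := h1.mul h1
    have h6 : (fun p : Nat.Primes => (1 - ((p : ℕ) : ℂ) ^ (-(1 + (x : ℂ))))⁻¹ * (1 + vz p (1 + x)))
        = fun p : Nat.Primes => ((Complex.ofRealHom : ℝ →+* ℂ) ∘
            fun p : Nat.Primes => (1 : ℝ) + az p * ((p : ℕ) : ℝ) ^ (-(1 + x))) p *
          ((Complex.ofRealHom : ℝ →+* ℂ) ∘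
            fun p : Nat.Primes => (1 : ℝ) + az p * ((p : ℕ) : ℝ) ^ (-(1 + x))) p := by
      funext p
      have hp := p.2
      have hp0 : (0 : ℝ) < (p : ℕ) := by exact_mod_cast hp.pos
      have hp1 : (1 : ℝ) < (p : ℕ) := by exact_mod_cast hp.one_lt
      set z : ℂ := ((p : ℕ) : ℂ) ^ (-(1 + (x : ℂ))) with hzd
      have hzr : ((((p : ℕ) : ℝ) ^ (-(1 + x)) : ℝ) : ℂ) = z := by
        rw [Complex.ofReal_cpow hp0.le]
        push_cast
        rfl
      have hzn : ‖z‖ < 1 := by
        rw [← hzr, Complex.norm_real, Real.norm_of_nonneg (by positivity)]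
        exact Real.rpow_lt_one_of_one_lt_of_neg hp1 (by linarith)
      have h1z : (1 : ℂ) - z ≠ 0 := by
        intro h
        have : z = 1 := by linear_combination -h
        rw [this] at hzn
        simp at hzn
      simp only [Function.comp, Complex.ofRealHom_eq_coe]
      rw [az_prime hp]
      push_cast
      by_cases hp2 : (p : ℕ) = 2
      · have hv : vz p (1 + x) = -z := by simp only [vz, if_pos hp2, hzd]
        rw [hv, if_pos hp2]
        push_cast
        rw [← sub_eq_add_neg, inv_mul_cancel₀ h1z]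
        ring
      · have hv : 1 + vz p (1 + x) = (1 + z / 2) ^ 2 * (1 - z) := by
          simp only [vz, if_neg hp2, ← hzd]; ring
        rw [hv, if_neg hp2]
        have h7 : (((p : ℕ) : ℂ) ^ (-(1 + (x : ℂ)))) = z := rfl
        have h8 : ((((p : ℕ) : ℝ) ^ (-(1 + x)) : ℝ) : ℂ) = z := hzr
        field_simp
        push_cast at h8 ⊢
        rw [h8]; ring
    rw [h6] at h4
    have h9 := h4.unique h5
    simp only [Complex.ofRealHom_eq_coe] at h9
    rw [hΦ]
    simp only
    rw [hz_of_ne hne, mul_assoc, h9]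
    push_cast
    ring
  have hΦ0 : ∀ x : ℝ, 0 ≤ x → Φ (1 + x) ≠ 0 := by
    intro x hx
    have hre : (1 + (x : ℂ)).re = 1 + x := by simp
    rw [hΦ]
    refine mul_ne_zero ?_ (hE0 _ (by rw [hre]; linarith))
    rcases hx.eq_or_lt with h | h
    · rw [← h]
      simp only [Complex.ofReal_zero, add_zero, hz_one]
      norm_num
    · have hne : (1 + (x : ℂ)) ≠ 1 := by
        intro h'
        have := congrArg Complex.re h'
        rw [hre] at this
        simp at this
        linarith
      rw [hz_of_ne hne]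
      refine mul_ne_zero (sub_ne_zero.mpr hne) ?_
      exact riemannZeta_ne_zero_of_one_lt_re (by rw [hre]; linarith)
  set q : ℝ → ℝ := fun x => (Φ (1 + x)).re with hq
  have hqa : ∀ x : ℝ, 0 ≤ x → AnalyticAt ℝ q x := by
    intro x hx
    have hre : (1 + (x : ℂ)).re = 1 + x := by simp
    have h1 : AnalyticAt ℝ Φ (1 + x) := (hΦa (1 + x) (by rw [hre]; linarith)).restrictScalars
    have h2 : AnalyticAt ℝ (fun x : ℝ => (1 + (x : ℂ))) x :=
      analyticAt_const.add (Complex.ofRealCLM.analyticAt x)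
    have h3 : AnalyticAt ℝ (fun x : ℝ => Φ (1 + (x : ℂ))) x := h1.comp_of_eq h2 rfl
    exact (Complex.reCLM.analyticAt _).comp h3
  have hqval : ∀ x : ℝ, 0 < x → q x = x * ZZ x ^ 2 := by
    intro x hx
    rw [hq]
    simp only
    rw [hval x hx, Complex.ofReal_re]
  have hqpos : ∀ x : ℝ, 0 ≤ x → 0 < q x := by
    intro x hx
    have hcont : ContinuousAt (fun x : ℝ => Φ (1 + (x : ℂ))) 0 := by
      have h1 : ContinuousAt Φ (1 + ((0 : ℝ) : ℂ)) := by
        apply (hΦd _ _).continuousAt
        norm_num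
      exact ContinuousAt.comp (f := fun x : ℝ => (1 + (x : ℂ))) h1 (by fun_prop)
    rcases hx.eq_or_lt with h | h
    · subst h
      have h2 : 0 ≤ q 0 ∧ (Φ (1 + ((0 : ℝ) : ℂ))).im = 0 := by
        have h3 : Tendsto (fun x : ℝ => Φ (1 + (x : ℂ))) (𝓝[>] 0) (𝓝 (Φ (1 + ((0 : ℝ) : ℂ)))) :=
          hcont.tendsto.mono_left nhdsWithin_le_nhds
        constructor
        · have h4 := (Complex.continuous_re.tendsto _).comp h3
          refine ge_of_tendsto h4 ?_
          filter_upwards [self_mem_nhdsWithin] with y hy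
          simp only [Function.comp]
          rw [hval y hy, Complex.ofReal_re]
          have : (0 : ℝ) < y := hy
          positivity
        · have h4 := (Complex.continuous_im.tendsto _).comp h3
          refine tendsto_nhds_unique h4 ?_
          apply tendsto_const_nhds.congr'
          filter_upwards [self_mem_nhdsWithin] with y hy
          simp only [Function.comp]
          rw [hval y hy, Complex.ofReal_im]
      rcases h2.1.eq_or_lt with h5 | h5
      · exfalso
        apply hΦ0 0 le_rfl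
        apply Complex.ext
        · exact h5.symm
        · exact h2.2
      · exact h5
    · have h1 := hval x h
      have h2 := hΦ0 x h.le
      rw [hqval x h]
      rw [h1] at h2
      have h3 : x * ZZ x ^ 2 ≠ 0 := by exact_mod_cast h2
      exact lt_of_le_of_ne (by positivity) (Ne.symm h3)
  have hV : ∀ x : ℝ, 0 ≤ x → x ≤ 1 → ContDiffAt ℝ ⊤ (fun x => √(q x)) x := by
    intro x hx _
    exact (hqa x hx).contDiffAt.sqrt (hqpos x hx).ne'
  refine ⟨fun x => √(q x), hE.ana _ hV, ?_, ?_⟩
  · have hc : ContinuousOn (fun x => √(q x)) (Set.Icc 0 1) := by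
      intro x hx
      exact (hV x hx.1 hx.2).continuousAt.continuousWithinAt
    obtain ⟨x₀, hx₀, hmin⟩ := isCompact_Icc.exists_isMinOn (Set.nonempty_Icc.mpr zero_le_one) hc
    refine ⟨√(q x₀), Real.sqrt_pos.mpr (hqpos x₀ hx₀.1), ?_⟩
    intro x h1 h2
    exact hmin ⟨h1.le, h2.le⟩
  · intro x h1 _
    simp only
    rw [hqval x h1, Real.sqrt_mul h1.le, Real.sqrt_sq (zz_nonneg x)]
    have : √x ≠ 0 := (Real.sqrt_pos.mpr h1).ne'
    field_simp

end Pool.Agent.Y248.FK
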